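import Pool.Agent.H174.GM.Stmts2

/-!
# Project GM: the number of Gog walks is the number of Magog walks
-/

set_option autoImplicit false

namespace Pool.Agent.H215.GM174

open Finset Pool.Agent.H174.GM

theorem gog_one : gogW 1 1 = 1 := by
  classical
  have h0 : ∀ i : Fin 1, st 1 i = 1 := fun i => by
    have : i.1 = 0 := by omega
    simp only [st, this]
  unfold gogW
  show NG 1 (0 + 1) (st 1) = 1
  simp only [NG]
  rw [if_pos ⟨fun i j hij => absurd hij (by
    have : i = j := Subsingleton.elim _ _
    rw [this]; exact lt_irrefl _), fun i => (h0 i).ge⟩]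
  rw [Finset.sum_eq_single (st 1)]
  · rw [if_pos rfl]
  · intro b _ hb
    rw [if_neg hb]
  · intro h
    exfalso
    apply h
    rw [Finset.mem_filter, Fintype.mem_piFinset]
    refine ⟨fun i => ?_, fun i => Nat.le_succ _, fun i j hij => ?_⟩
    · rw [h0 i, Finset.mem_range]
      norm_num
    · exfalso
      have h1 := i.2
      have h2 := j.2
      omega

theorem magog_one : magogW 1 1 = 1 := by
  classical
  have h0 : ∀ i : Fin 1, st 1 i = 1 := fun i => by
    have : i.1 = 0 := by omega
    simp only [st, this]
  unfold magogW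
  rw [Finset.sum_eq_single (st 1)]
  · show NM 1 (0 + 1) (st 1) = 1
    simp only [NM]
    rw [if_pos fun i => (h0 i).ge, Finset.sum_eq_single (fun _ => 0)]
    · rw [if_pos rfl]
    · intro b _ hb
      rw [if_neg hb]
    · intro h
      exfalso
      apply h
      rw [Finset.mem_filter, Fintype.mem_piFinset]
      refine ⟨fun i => ?_, fun i => ?_, fun i j hij => ?_⟩
      · rw [Finset.mem_range]
        norm_num
      · rw [h0 i]
      · exfalso
        have h1 := i.2
        have h2 := j.2
        omega
  · intro a ha hne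
    show NM 1 (0 + 1) a = 0
    simp only [NM]
    rw [if_neg]
    intro h1
    apply hne
    funext i
    have h2 := Finset.mem_range.1 (Fintype.mem_piFinset.1 ha i)
    have h3 := h1 i
    rw [h0 i]
    omega
  · intro h
    exfalso
    apply h
    rw [Fintype.mem_piFinset]
    intro i
    rw [h0 i, Finset.mem_range]
    norm_num

theorem main (h1 : S_RATIO) (h2 : S_NORMG) (h3 : S_NORMM) (h4 : S_POS) :
    Pool.Agent.H174.GM.S_MAIN := by
  have key : ∀ k : ℕ, 1 ≤ k → ∀ n, k ≤ n → gogW n k = magogW n k := by
    intro k hk
    -- one value is enough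
    have red : (∃ n₀, k ≤ n₀ ∧ gogW n₀ k = magogW n₀ k) → ∀ n, k ≤ n → gogW n k = magogW n k := by
      rintro ⟨n₀, hn₀, he⟩ n hn
      obtain ⟨C, hC⟩ := h1 k hk
      have e1 := hC n₀ hn₀
      have hp : (0 : ℚ) < magogW n₀ k := by exact_mod_cast h4 n₀ k
      rw [he] at e1
      have hC1 : C = 1 := by
        have h5 : (C - 1) * (magogW n₀ k : ℚ) = 0 := by linear_combination -e1
        rcases mul_eq_zero.1 h5 with h6 | h6
        · linear_combination h6
        · exact absurd h6 hp.ne'
      have e2 := hC n hn
      rw [hC1, one_mul] at e2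
      exact_mod_cast e2
    induction k, hk using Nat.le_induction with
    | base => exact red ⟨1, le_rfl, by rw [gog_one, magog_one]⟩
    | succ k hk ih =>
      apply red
      refine ⟨k + 1, le_rfl, ?_⟩
      rw [h2 k hk, h3 k hk]
      obtain ⟨C, hC⟩ := h1 k hk
      refine ih ?_ (k + 1) (Nat.le_succ k)
      rintro ⟨n₀, hn₀, he⟩ n hn
      have e1 := hC n₀ hn₀
      have hp : (0 : ℚ) < magogW n₀ k := by exact_mod_cast h4 n₀ k
      rw [he] at e1
      have hC1 : C = 1 := by
        have h5 : (C - 1) * (magogW n₀ k : ℚ) = 0 := by linear_combination -e1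
        rcases mul_eq_zero.1 h5 with h6 | h6
        · linear_combination h6
        · exact absurd h6 hp.ne'
      have e2 := hC n hn
      rw [hC1, one_mul] at e2
      exact_mod_cast e2
  intro n k hk hkn
  exact key k hk n hkn

end Pool.Agent.H215.GM174
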